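import Pool.Agent.H44.Pak4

open Filter Topology Pool.Agent.H44.Pak

theorem Pool.Agent.Results.MP_1e9518_pr.Q2False.result :
    ∃ (V : ℕ → Type) (_ : ∀ n, Fintype (V n)) (_ : ∀ n, DecidableEq (V n))
      (Γ : ∀ n, SimpleGraph (V n)),
      Tendsto (fun n => Fintype.card (V n)) atTop atTop ∧
      (∀ n, (Γ n).Connected ∧ VertexTransitive (Γ n)) ∧
      (∀ n, ∀ ε > 0, (∃ t, tvDist (lazySrw (Γ n)) t ≤ ε) ∧ ∃ t, sepDist (lazySrw (Γ n)) t ≤ ε) ∧
      Tendsto (fun n => (tmix (lazySrw (Γ n)) (1 / 4) : ℝ) / trel (lazySrw (Γ n))) atTop atTop ∧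
      ¬ ∀ ε ∈ Set.Ioo (0 : ℝ) (1 / 2), Tendsto (fun n =>
        (tsep (lazySrw (Γ n)) ε : ℝ) / tsep (lazySrw (Γ n)) (1 - ε)) atTop (𝓝 1) := by
  choose G i1 i2 i3 S θ h using exists_good
  have hr : ∀ n : ℕ, 11 ≤ n + 11 := fun n => by omega
  refine ⟨G, i1, i2, fun n => SimpleGraph.circulantGraph (S n : Set (G n)),
    card_tendsto fun n => (h n).card,
    fun n => ⟨(h n).connected (hr n), circ_transitive _⟩, fun n ε hε => ?_, ?_, fun hc => ?_⟩
  · rw [(h n).lazySrw_eq]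
    exact ⟨((h n).tv (hr n) (by norm_num) le_rfl).1 ε hε,
      ((h n).sep (hr n) (by norm_num) le_rfl).1 ε hε⟩
  · refine tendsto_of_ge fun n => ?_
    rw [(h n).lazySrw_eq, div_trel]; exact (h n).prod (hr n) (by norm_num) le_rfl
  · refine not_tendsto_one (fun n => ?_) (hc (1 / 4) ⟨by norm_num, by norm_num⟩)
    rw [(h n).lazySrw_eq]; exact ((h n).sep (hr n) (by norm_num) le_rfl).2
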